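import Mathlib
import Pool.Agent.R158.Plane

set_option autoImplicit false

/-!
# The dual irregularity strength of a finite projective plane is of order at least `q ^ (3 / 2)`

The incidence matrix `A` of a projective plane of order `q` with `N = q ^ 2 + q + 1` points satisfies
`Aᵀ A = q I + J`. So the variance of the line sums of a labelling is `q` times the variance of the
labels, which is at most `q N (s - 1) ^ 2 / 4` when the labels are between `1` and `s`. Pairwise
distinct integers have variance at least `(N ^ 3 - N) / 12`.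
-/

namespace Pool.Agent.Results.MP_aa9284_co.SuperlinearStrength

open Configuration Configuration.ProjectivePlane Finset
open scoped Classical LinearAlgebra.Projectivization

/-- The labelling `w` of the points by positive integers is line-irregular: the line sums are
pairwise distinct. -/
def LineIrregular (P L : Type) [Membership P L] [Fintype P] (w : P → ℕ) : Prop :=
  (∀ x, 0 < w x) ∧ Function.Injective (fun l : L => ∑ x with x ∈ l, w x)

/-- The dual irregularity strength: the minimum of the largest label over all line-irregular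
labellings. -/
noncomputable def dualStrength (P L : Type) [Membership P L] [Fintype P] : ℕ :=
  sInf {s | ∃ w : P → ℕ, LineIrregular P L w ∧ univ.sup w = s}

section
variable {P L : Type} [Membership P L] [ProjectivePlane P L] [Fintype P] [Fintype L]

lemma exists_labelling (P L : Type) [Membership P L] [ProjectivePlane P L] [Fintype P]
    [Fintype L] : ∃ w : P → ℕ, LineIrregular P L w := by
  let e := Fintype.equivFin P
  refine ⟨fun x => 2 ^ (e x : ℕ), fun x => by positivity, ?_⟩
  intro l m h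
  have h1 : ∀ l : L, ∑ x with x ∈ l, 2 ^ (e x : ℕ) =
      ∑ i ∈ (univ.filter (fun x : P => x ∈ l)).image (fun x => (e x : ℕ)), 2 ^ i := by
    intro l
    rw [Finset.sum_image]
    intro x _ y _ hxy
    exact e.injective (Fin.ext hxy)
  simp only [h1] at h
  have h2 := Finset.geomSum_injective (n := 2) le_rfl h
  have hinj : Function.Injective (fun x : P => (e x : ℕ)) := fun x y hxy =>
    e.injective (Fin.ext hxy)
  have h3 := Finset.image_injective hinj h2
  by_contra hne
  -- a line has at least two points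
  have h4 := card_line_aux (P := P) l
  obtain ⟨x, hx, y, hy, hxy⟩ := Finset.one_lt_card.1 h4
  have hx' : x ∈ univ.filter (fun x : P => x ∈ m) := by rw [← h3]; exact hx
  have hy' : y ∈ univ.filter (fun x : P => x ∈ m) := by rw [← h3]; exact hy
  simp only [mem_filter, mem_univ, true_and] at hx hy hx' hy'
  rcases Nondegenerate.eq_or_eq hx hy hx' hy' with h | h
  · exact hxy h
  · exact hne h
where
  card_line_aux {P L : Type} [Membership P L] [ProjectivePlane P L] [Fintype P] [Fintype L]
      (l : L) : 1 < (univ.filter (fun x : P => x ∈ l)).card := by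
    rw [Pool.Agent.R158.Plane.card_line]
    have := one_lt_order P L
    omega

lemma bound_labelling (w : P → ℕ) (hw : LineIrregular P L w) (s : ℕ) (hs : ∀ x, w x ≤ s) :
    ((order P L : ℝ) + 1) * ((order P L : ℝ) ^ 2 + order P L + 2) ≤ 3 * ((s : ℝ) - 1) ^ 2 := by
  set q : ℝ := (order P L : ℝ) with hq
  have hq1 : 1 < q := by rw [hq]; exact_mod_cast one_lt_order P L
  set N : ℝ := q ^ 2 + q + 1 with hN
  have hcardL : (Fintype.card L : ℝ) = N := by
    rw [card_lines P L]; push_cast; rfl
  have hcardP : (Fintype.card P : ℝ) = N := by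
    rw [card_points P L]; push_cast; rfl
  set f : P → ℝ := fun x => (w x : ℝ) - (s + 1) / 2 with hf
  set F := ∑ x, f x with hF
  set c : ℝ := (q + 1) * (s + 1) / 2 + (q + 1) * F / N with hc
  have hinj : Function.Injective (fun l : L => ((∑ x with x ∈ l, w x : ℕ) : ℤ)) := by
    intro l m h
    exact hw.2 (Nat.cast_injective (R := ℤ) h)
  have h1 := Pool.Agent.R158.Plane.variance_bound _ hinj c
  have hNpos : 0 < N := by nlinarith
  have h2 : ∀ l : L, (((∑ x with x ∈ l, w x : ℕ) : ℤ) : ℝ) - c =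
      (∑ x with x ∈ l, f x) - (q + 1) * F / N := by
    intro l
    have : (∑ x with x ∈ l, f x) = (∑ x with x ∈ l, (w x : ℝ)) - (q + 1) * ((s + 1) / 2) := by
      rw [hf]
      rw [Finset.sum_sub_distrib, Finset.sum_const, Pool.Agent.R158.Plane.card_line,
        nsmul_eq_mul]
      push_cast
      rfl
    rw [this, hc]
    push_cast
    ring
  simp_rw [h2] at h1
  have h3 : ∑ l : L, ((∑ x with x ∈ l, f x) - (q + 1) * F / N) ^ 2 =
      q * ∑ x, f x ^ 2 + F ^ 2 - (q + 1) ^ 2 * F ^ 2 / N := by
    have : ∀ l : L, ((∑ x with x ∈ l, f x) - (q + 1) * F / N) ^ 2 =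
        (∑ x with x ∈ l, f x) ^ 2 - 2 * ((q + 1) * F / N) * (∑ x with x ∈ l, f x) +
          ((q + 1) * F / N) ^ 2 := fun l => by ring
    simp_rw [this]
    rw [Finset.sum_add_distrib, Finset.sum_sub_distrib, ← Finset.mul_sum,
      Pool.Agent.R158.Plane.sum_sq, Pool.Agent.R158.Plane.sum_lin, Finset.sum_const, nsmul_eq_mul,
      Finset.card_univ, hcardL, ← hq, ← hF]
    field_simp
    ring
  rw [h3, hcardL] at h1
  have h4 : F ^ 2 ≤ (q + 1) ^ 2 * F ^ 2 / N := by
    rw [le_div_iff₀ hNpos]
    nlinarith [sq_nonneg F]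
  have h5 : ∑ x, f x ^ 2 ≤ N * (((s : ℝ) - 1) / 2) ^ 2 := by
    rw [← hcardP, ← nsmul_eq_mul, ← Finset.card_univ, ← Finset.sum_const]
    apply Finset.sum_le_sum
    intro x _
    have h6 : (1 : ℝ) ≤ w x := by exact_mod_cast hw.1 x
    have h7 : (w x : ℝ) ≤ s := by exact_mod_cast hs x
    rw [hf]
    apply sq_le_sq'
    · linarith
    · linarith
  have h6 : (N ^ 3 - N) / 12 ≤ q * (N * (((s : ℝ) - 1) / 2) ^ 2) := by
    have := mul_le_mul_of_nonneg_left h5 (by linarith : (0 : ℝ) ≤ q)
    linarith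
  have h7 : N * (q * ((q + 1) * (q ^ 2 + q + 2))) ≤ N * (q * (3 * ((s : ℝ) - 1) ^ 2)) := by
    have e1 : N * (q * ((q + 1) * (q ^ 2 + q + 2))) = 12 * ((N ^ 3 - N) / 12) := by
      rw [hN]; ring
    have e2 : N * (q * (3 * ((s : ℝ) - 1) ^ 2)) = 12 * (q * (N * (((s : ℝ) - 1) / 2) ^ 2)) := by
      ring
    rw [e1, e2]
    linarith
  have h8 := le_of_mul_le_mul_left h7 hNpos
  exact le_of_mul_le_mul_left h8 (by linarith)

lemma bound (P L : Type) [Membership P L] [ProjectivePlane P L] [Fintype P] [Fintype L] :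
    ((order P L : ℝ) + 1) * ((order P L : ℝ) ^ 2 + order P L + 2) ≤
      3 * ((dualStrength P L : ℝ) - 1) ^ 2 := by
  have hne : {s | ∃ w : P → ℕ, LineIrregular P L w ∧ univ.sup w = s}.Nonempty := by
    obtain ⟨w, hw⟩ := exists_labelling P L
    exact ⟨_, w, hw, rfl⟩
  obtain ⟨w, hw, hs⟩ := Nat.sInf_mem hne
  apply bound_labelling w hw
  intro x
  rw [dualStrength, ← hs]
  exact Finset.le_sup (f := w) (mem_univ x)

end

/-- Every finite projective plane of order `q` has dual irregularity strength `s` with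
`3 (s - 1) ^ 2 ≥ (q + 1) (q ^ 2 + q + 2)`, so `s > q ^ (3 / 2) / √3`. Hence for every constant `c`
there is a finite projective plane of some order `q` whose dual irregularity strength exceeds
`c q`. -/
theorem result :
    (∀ (P L : Type) [Membership P L] [ProjectivePlane P L] [Fintype P] [Fintype L],
      ((order P L : ℝ) + 1) * ((order P L : ℝ) ^ 2 + order P L + 2) ≤
        3 * ((dualStrength P L : ℝ) - 1) ^ 2) ∧
    ∀ c : ℝ, ∃ (P L : Type) (_ : Membership P L) (_ : ProjectivePlane P L) (_ : Fintype P)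
      (_ : Fintype L), c * (order P L : ℝ) < (dualStrength P L : ℝ) := by
  refine ⟨fun P L _ _ _ _ => bound P L, ?_⟩
  intro c
  obtain ⟨p, hp1, hp2⟩ := Nat.exists_infinite_primes (⌈3 * c ^ 2⌉₊ + 1)
  have : Fact p.Prime := ⟨hp2⟩
  have : Fintype (ℙ (ZMod p) (Fin 3 → ZMod p)) := Fintype.ofFinite _
  refine ⟨ℙ (ZMod p) (Fin 3 → ZMod p), ℙ (ZMod p) (Fin 3 → ZMod p), inferInstance, inferInstance,
    inferInstance, inferInstance, ?_⟩
  have h1 := bound (ℙ (ZMod p) (Fin 3 → ZMod p)) (ℙ (ZMod p) (Fin 3 → ZMod p))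
  have h2 : order (ℙ (ZMod p) (Fin 3 → ZMod p)) (ℙ (ZMod p) (Fin 3 → ZMod p)) = p := by
    rw [Pool.Agent.R158.Plane.order_pg, Nat.card_eq_fintype_card, ZMod.card]
  rw [h2] at h1 ⊢
  set s : ℝ := (dualStrength (ℙ (ZMod p) (Fin 3 → ZMod p)) (ℙ (ZMod p) (Fin 3 → ZMod p)) : ℝ)
  have hs0 : 0 ≤ s := Nat.cast_nonneg _
  have hp3 : 3 * c ^ 2 < (p : ℝ) := by
    have h3 := Nat.le_ceil (3 * c ^ 2)
    have h4 : ((⌈3 * c ^ 2⌉₊ + 1 : ℕ) : ℝ) ≤ p := by exact_mod_cast hp1
    push_cast at h4
    linarith
  have hp0 : (1 : ℝ) < p := by exact_mod_cast hp2.one_lt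
  by_contra hcon
  push Not at hcon
  have h5 : (s - 1) ^ 2 ≤ (c * p) ^ 2 := by
    rcases le_or_gt 1 s with h | h
    · apply sq_le_sq'
      · linarith
      · linarith
    · -- impossible: then `(s - 1) ^ 2 ≤ 1`
      exfalso
      have : (s - 1) ^ 2 ≤ 1 := by nlinarith
      nlinarith
  have h6 : (p : ℝ) ^ 3 ≤ 3 * (c * p) ^ 2 := by nlinarith
  have h7 : (p : ℝ) ^ 2 * p ≤ (p : ℝ) ^ 2 * (3 * c ^ 2) := by nlinarith
  have h8 := le_of_mul_le_mul_left h7 (by positivity)
  linarith

end Pool.Agent.Results.MP_aa9284_co.SuperlinearStrength
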